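import Mathlib
import Pool.Agent.EGH2.Fin3

set_option autoImplicit false

namespace Pool.Agent.Results.MP_6f0df1_al.DefectTwo

open MvPolynomial

/-- The Eisenbud–Green–Harris growth inequality for defect at most two, in complete generality.
Let `f` be a regular sequence of forms of degrees `D 0 ≤ D 1 ≤ …` (`c ≤ n` forms in `n` variables over any
field), `J` an ideal containing it, `d` any degree with `dim J_d ≤ dim (f)_d + 2`. Then some lex ideal `L`
satisfies `dim (L + P)_d = dim J_d` and `dim (L + P)_{d+1} ≤ dim J_{d+1}`, where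
`P = (x_0 ^ D 0, …, x_{c-1} ^ D (c-1))`. -/
theorem result (k : Type) [Field k] (n c : ℕ) (hc : c ≤ n) (D : Fin c → ℕ)
    (hD : ∀ t, 1 ≤ D t) (hmono : Monotone D) (J : Ideal (MvPolynomial (Fin n) k))
    (f : Fin c → MvPolynomial (Fin n) k) (hfJ : ∀ t, f t ∈ J)
    (hfD : ∀ t, (f t).IsHomogeneous (D t))
    (hreg : RingTheory.Sequence.IsRegular (MvPolynomial (Fin n) k) (List.ofFn f)) (d : ℕ)
    (h2 : Module.finrank k ↥(Submodule.restrictScalars k J ⊓ homogeneousSubmodule (Fin n) k d)
      ≤ Module.finrank k ↥(Submodule.restrictScalars k (Ideal.span (Set.range f))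
          ⊓ homogeneousSubmodule (Fin n) k d) + 2) :
    ∃ L : Ideal (MvPolynomial (Fin n) k),
      (∃ M : Set (Fin n →₀ ℕ), L = Ideal.span ((fun s => monomial s (1 : k)) '' M)) ∧
      (∀ u v : Fin n →₀ ℕ, ∑ t, u t = ∑ t, v t →
          (∃ t, (∀ s, s < t → v s = u s) ∧ v t < u t) →
          monomial v (1 : k) ∈ L → monomial u (1 : k) ∈ L) ∧
      Module.finrank k ↥(Submodule.restrictScalars k
            (L + Ideal.span (Set.range fun t : Fin c => X (Fin.castLE hc t) ^ D t))
            ⊓ homogeneousSubmodule (Fin n) k d)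
        = Module.finrank k ↥(Submodule.restrictScalars k J
            ⊓ homogeneousSubmodule (Fin n) k d) ∧
      Module.finrank k ↥(Submodule.restrictScalars k
            (L + Ideal.span (Set.range fun t : Fin c => X (Fin.castLE hc t) ^ D t))
            ⊓ homogeneousSubmodule (Fin n) k (d + 1))
        ≤ Module.finrank k ↥(Submodule.restrictScalars k J
            ⊓ homogeneousSubmodule (Fin n) k (d + 1)) :=
  Pool.Agent.EGH2.defect_two hc hD hmono J f hfJ hfD hreg d h2

end Pool.Agent.Results.MP_6f0df1_al.DefectTwo
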