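import Mathlib
import Pool.Agent.EGH10.Fin

set_option autoImplicit false

namespace Pool.Agent.Results.MP_6f0df1_al.LinearError

open MvPolynomial

/-- The Eisenbud–Green–Harris growth inequality in every degree `d` and for every defect
`a = dim J_d - dim (f)_d`, up to an additive error `E` which only counts jumps: with
`σ_u = ∑_{i < u} (D i - 1)` and `t` the index of the window `σ_t ≤ d < σ_{t+1}` (`t = c`: `σ_c ≤ d`),
`E = (∑_{j < a} #{u | t ≤ u < c, σ_{u+1} ≤ d + j}) - 1` (natural subtraction).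
The error is `E` if `σ_t < d` and `a + t ≤ n`, it is `E + (a - 1)` if `σ_t = d` and `a + t ≤ n + 1`,
and `E + a (a - 1) / 2` in all cases.  If `D i > r ≥ 1` for all `i ≥ t`, then
`E ≤ (∑_{j < a} ⌈j / r⌉) - 1`. -/
theorem result (k : Type) [Field k] (n c : ℕ) (hc : c ≤ n) (D : Fin c → ℕ)
    (hD : ∀ t, 1 ≤ D t) (hmono : Monotone D) (J : Ideal (MvPolynomial (Fin n) k))
    (f : Fin c → MvPolynomial (Fin n) k) (hfJ : ∀ t, f t ∈ J)
    (hfD : ∀ t, (f t).IsHomogeneous (D t))
    (hreg : RingTheory.Sequence.IsRegular (MvPolynomial (Fin n) k) (List.ofFn f)) (d a : ℕ)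
    (ha : Module.finrank k ↥(Submodule.restrictScalars k J ⊓ homogeneousSubmodule (Fin n) k d)
      = Module.finrank k ↥(Submodule.restrictScalars k (Ideal.span (Set.range f))
          ⊓ homogeneousSubmodule (Fin n) k d) + a)
    (t : ℕ) (htc : t ≤ c) (h1 : ∑ i : Fin c with i.val < t, (D i - 1) ≤ d)
    (h2 : t < c → d < ∑ i : Fin c with i.val < t + 1, (D i - 1)) (E : ℕ)
    (hE : E = ∑ j ∈ Finset.range a, (Finset.univ.filter (fun u : Fin c => t ≤ u.val ∧
      ∑ i : Fin c with i.val < u.val + 1, (D i - 1) ≤ d + j)).card - 1) :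
    (∃ L : Ideal (MvPolynomial (Fin n) k),
      (∃ M : Set (Fin n →₀ ℕ), L = Ideal.span ((fun s => monomial s (1 : k)) '' M)) ∧
      (∀ u v : Fin n →₀ ℕ, ∑ t, u t = ∑ t, v t →
          (∃ t, (∀ s, s < t → v s = u s) ∧ v t < u t) →
          monomial v (1 : k) ∈ L → monomial u (1 : k) ∈ L) ∧
      Module.finrank k ↥(Submodule.restrictScalars k
            (L + Ideal.span (Set.range fun t : Fin c => X (Fin.castLE hc t) ^ D t))
            ⊓ homogeneousSubmodule (Fin n) k d)
        = Module.finrank k ↥(Submodule.restrictScalars k J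
            ⊓ homogeneousSubmodule (Fin n) k d) ∧
      Module.finrank k ↥(Submodule.restrictScalars k
            (L + Ideal.span (Set.range fun t : Fin c => X (Fin.castLE hc t) ^ D t))
            ⊓ homogeneousSubmodule (Fin n) k (d + 1))
        ≤ Module.finrank k ↥(Submodule.restrictScalars k J
            ⊓ homogeneousSubmodule (Fin n) k (d + 1)) + (E + a * (a - 1) / 2) ∧
      (∑ i : Fin c with i.val < t, (D i - 1) < d → a + t ≤ n →
        Module.finrank k ↥(Submodule.restrictScalars k
            (L + Ideal.span (Set.range fun t : Fin c => X (Fin.castLE hc t) ^ D t))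
            ⊓ homogeneousSubmodule (Fin n) k (d + 1))
        ≤ Module.finrank k ↥(Submodule.restrictScalars k J
            ⊓ homogeneousSubmodule (Fin n) k (d + 1)) + E) ∧
      (∑ i : Fin c with i.val < t, (D i - 1) = d → a + t ≤ n + 1 →
        Module.finrank k ↥(Submodule.restrictScalars k
            (L + Ideal.span (Set.range fun t : Fin c => X (Fin.castLE hc t) ^ D t))
            ⊓ homogeneousSubmodule (Fin n) k (d + 1))
        ≤ Module.finrank k ↥(Submodule.restrictScalars k J
            ⊓ homogeneousSubmodule (Fin n) k (d + 1)) + (E + (a - 1)))) ∧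
    (∀ r : ℕ, 1 ≤ r → (∀ i : Fin c, t ≤ i.val → r + 1 ≤ D i) →
      E ≤ ∑ j ∈ Finset.range a, (j + r - 1) / r - 1) := by
  refine ⟨Pool.Agent.EGH10.linear_error hc hD hmono J f hfJ hfD hreg d a ha t htc h1 h2 E hE, ?_⟩
  intro r hr hrD
  rw [hE]
  apply Nat.sub_le_sub_right
  apply Finset.sum_le_sum
  intro j _
  exact Pool.Agent.EGH10.NN_le hD h2 hr hrD j

end Pool.Agent.Results.MP_6f0df1_al.LinearError
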